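import Pool.Agent.helper15.SD.Final

/-!
# MP_de2d0b_an : surface diffeomorphisms with no homoclinic class of full entropy

For every `r > 1` and `0 < ε < 1` there is a `C^r` diffeomorphism `f` of the torus `ℝ²/ℤ²` with
`h_top(f) > (1 - ε) λ_min(f) / r > 0` such that `h_top(f, HC(O)) < h_top(f)` for every hyperbolic
periodic orbit `O`.
-/

open Set Filter Topology

namespace Pool.Agent.Results.MP_de2d0b_an.NoFullClass

open Pool.Agent.helper15.SD

/-- Full positive answer to Q1. -/
theorem result :
    ∀ r ε : ℝ, 1 < r → 0 < ε → ε < 1 →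
      ∃ (φ : CrDiffeo r) (lu ls : ℝ),
        IsGrowthRate φ.F lu ∧ IsGrowthRate φ.F' ls ∧
        0 < (1 - ε) * min lu ls / r ∧
        (((1 - ε) * min lu ls / r : ℝ) : EReal) < Dynamics.coverEntropy φ.f univ ∧
        ∀ O : Set T2, IsHPO φ O →
          Dynamics.coverEntropy φ.f (HC φ O) < Dynamics.coverEntropy φ.f univ :=
  full_answer

end Pool.Agent.Results.MP_de2d0b_an.NoFullClass
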